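import Pool.Agent.R852.BC.Fin

set_option autoImplicit false

/-!
# Discriminants of vector bundles of rank two on large projective spaces

Let `E` be a complex vector bundle of rank two on `ℙ^n` with the Chern classes `c₁`, `c₂`, and let
`D = c₁² - 4 c₂` be its discriminant. Write `D = f s²` with integers `f`, `s` (for example `s = 1`, or
`f` the squarefree part of `D`). The theorem of Riemann-Roch gives the Riemann-Roch conditions for the
polynomial `T² - c₁ T + c₂`. We show, for all real numbers `A` and `ε > 0`, and all `n ≥ n₀(A, ε)`: if

  `|D| ≤ n ^ A` and `|f| ≤ n ^ (4 √e - ε)`,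

then `E` has the Chern classes of a direct sum of two line bundles. Here `4 √e = 6.59…`.

With `s = 1`, `A = 7` the first condition follows from the second one, and so `D` is a square or
`|D| > n ^ (4 √e - ε)`. In particular `4 c₂ - c₁² > n ^ (4 √e - ε)` for every bundle with
`4 c₂ > c₁²`; by Bogomolov's inequality all stable bundles are of this kind, apart from twists of
flat ones.

The proof. By the Riemann-Roch conditions `D` is a square modulo all odd primes `p < n` (this is in
the work of helper920). If `D` is not a square, the real character `χ` of a suitable modulus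
`m ∣ 8 f` defined by `f` is therefore equal to `1` at all primes `p < n` which do not divide `2 D`.
We prove Burgess' bound for the sums of real characters with arbitrary moduli over intervals of
length at least `m ^ (1/4 + η)`, remove the primes dividing `2 D`, and conclude with the method of
Vinogradov.
-/

namespace Pool.Agent.Results.MP_b01859_ag.BurgessDiscriminant

open Pool.Agent.R920.CH

/-- **Discriminants of bundles of rank two.** -/
theorem result (A ε : ℝ) (hε : 0 < ε) : ∃ n₀ : ℕ, ∀ n ≥ n₀, ∀ c₁ c₂ f s : ℤ,
    RiemannRoch n (poly2 c₁ c₂) → c₁ ^ 2 - 4 * c₂ = f * s ^ 2 →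
    (|c₁ ^ 2 - 4 * c₂| : ℤ) ≤ (n : ℝ) ^ A →
    (|f| : ℤ) ≤ (n : ℝ) ^ (4 * Real.exp (1 / 2) - ε) →
    ∃ a b : ℤ, c₁ = a + b ∧ c₂ = a * b :=
  Filter.eventually_atTop.mp (Pool.Agent.R852.BC.rank_two A ε hε)

end Pool.Agent.Results.MP_b01859_ag.BurgessDiscriminant
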