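import Pool.Agent.R920.CH.TwoC

/-!
# The discriminant of a vector bundle of rank two

Let `E` be a complex vector bundle of rank two on `ℙ^n`, `n ≥ 4`, with the Chern classes `c₁`, `c₂`,
and let `D = c₁² - 4 c₂` be its discriminant. The theorem of Riemann-Roch gives the Riemann-Roch
conditions for the polynomial `T² - c₁ T + c₂`. We show that they imply:

* for all `h` with `2 h ≤ n` the product of the numbers `D - (2 j + ε)²`, `0 ≤ j < h`, is divisible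
  by `2 ^ (2 h - 1) (2 h)!`, where `ε` is `0` or `1`, the parity of `c₁`;
* `D` is a square modulo every odd prime `p < n`, and if such a prime divides `D` and `2 p ≤ n` then
  `p²` divides `D`;
* if `D < 0` then `|D| > (n - 1)² / 5`;
* if `0 ≤ D < (n - 3)²` then `E` has the Chern classes of a direct sum of two line bundles.

In particular (Bogomolov) a stable bundle of rank two on `ℙ^n` has a discriminant with
`4 c₂ - c₁² > (n - 1)² / 5`: for a stable bundle `D ≤ 0`, and `D = 0` implies that `E` is a twist of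
a flat bundle.
-/

open Polynomial

namespace Pool.Agent.Results.MP_b01859_ag.DiscriminantBounds

open Pool.Agent.R920.CH

/-- **Bounds for the discriminant.** -/
theorem result (n : ℕ) (hn : 4 ≤ n) (c₁ c₂ : ℤ) (hRR : RiemannRoch n (poly2 c₁ c₂)) :
    (∀ h, 1 ≤ h → 2 * h ≤ n → (2 ^ (2 * h - 1) * (2 * h).factorial : ℤ) ∣
      ∏ j ∈ Finset.range h, (c₁ ^ 2 - 4 * c₂ - (2 * (j : ℤ) + c₁ % 2) ^ 2)) ∧
    (∀ p : ℕ, p.Prime → p ≠ 2 → p < n → ∃ t : ℤ, (p : ℤ) ∣ c₁ ^ 2 - 4 * c₂ - t ^ 2) ∧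
    (∀ p : ℕ, p.Prime → p ≠ 2 → 2 * p ≤ n → (p : ℤ) ∣ c₁ ^ 2 - 4 * c₂ →
      (p : ℤ) ^ 2 ∣ c₁ ^ 2 - 4 * c₂) ∧
    (c₁ ^ 2 - 4 * c₂ < 0 → ((n : ℤ) - 1) ^ 2 < 5 * (4 * c₂ - c₁ ^ 2)) ∧
    (0 ≤ c₁ ^ 2 - 4 * c₂ → c₁ ^ 2 - 4 * c₂ < ((n : ℤ) - 3) ^ 2 →
      ∃ a b : ℤ, c₁ = a + b ∧ c₂ = a * b) :=
  ⟨fun _ h1 h2 => divis hRR h1 h2, square_mod hRR, square_dvd hRR,
    neg_bound (by omega) hRR, pos_bound hn hRR⟩

end Pool.Agent.Results.MP_b01859_ag.DiscriminantBounds
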