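import Pool.Agent.R418.CF.C
import Pool.Agent.R920.CH.TwoC

/-!
# Discriminants of bundles of rank two in polynomial families

Let `E` be a complex vector bundle of rank two on `ℙ^n` with the Chern classes `c₁`, `c₂`. The theorem
of Riemann-Roch gives the Riemann-Roch conditions for the polynomial `T² - c₁ T + c₂`: the sum of the
values at its roots of every integer-valued polynomial of degree at most `n` is an integer. We call an
integer `Δ` possible on `ℙ^n` if it is the discriminant `c₁² - 4 c₂` of integers `c₁`, `c₂` satisfying
these conditions.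

We show: for every `δ > 0` at most `O (N ^ (1/2 + δ))` of the values at `N` consecutive integers of
every polynomial which is not a constant times a square are possible on `ℙ^n`, as soon as `N` and `n`
are at least a power of `log T`, where the coefficients are bounded by a power of `T ≥ N`. The bound is
uniform in the polynomial, the position of the interval and `n`. The exponent `1/2` is best possible
(the values of the polynomial `t` that are squares are the discriminants of split bundles).

Proof. A possible discriminant is a square modulo all odd primes `p < n` (work of helper920). By Weil's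
bound this excludes about half of the residue classes modulo `p`, for all primes `p` up to a power of
`log T` but few (those dividing a resultant). We apply the arithmetic large sieve to the products of
`k` of these primes, `k` of the order `log N / loglog T`.
-/

set_option autoImplicit false

open Finset Polynomial

namespace Pool.Agent.Results.MP_b01859_ag.DiscriminantsInFamilies

open Pool.Agent.R920.CH

/-- `Δ` is the discriminant `c₁² - 4 c₂` of a pair of integers satisfying the Riemann-Roch conditions for
bundles of rank two on `ℙ^n`. -/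
def Possible (n : ℕ) (Δ : ℤ) : Prop :=
  ∃ c₁ c₂ : ℤ, Δ = c₁ ^ 2 - 4 * c₂ ∧ RiemannRoch n (X ^ 2 - C c₁ * X + C c₂)

open Classical in
/-- **Possible discriminants in polynomial families.** The polynomial is `g h²` with `g` separable over
the rational numbers and not constant, and `h ≠ 0`. -/
theorem result (δ : ℝ) (hδ : 0 < δ) (B D : ℕ) : ∃ C K : ℝ, 0 < C ∧ 0 < K ∧
    ∀ (T n N a : ℕ) (g h : ℤ[X]), 1 ≤ g.natDegree → g.natDegree ≤ D →
      (g.map (Int.castRingHom ℚ)).Separable → h ≠ 0 → h.natDegree ≤ D →
      (∀ i, |((g.coeff i : ℤ) : ℝ)| ≤ (T : ℝ) ^ B) → (∀ i, |((h.coeff i : ℤ) : ℝ)| ≤ (T : ℝ) ^ B) →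
      Real.log T ^ C ≤ N → N ≤ T → Real.log T ^ C ≤ n →
      (((Ioc a (a + N)).filter fun j : ℕ =>
        Possible n (g.eval (j : ℤ) * h.eval (j : ℤ) ^ 2)).card : ℝ) ≤
        K * (N : ℝ) ^ (1 / 2 + δ) := by
  obtain ⟨C, K, hC, hK, hmain⟩ := Pool.Agent.R418.CF.main δ hδ B D
  refine ⟨C, K, hC, hK, ?_⟩
  intro T n N a g h h1 h2 h3 h4 h5 h6 h7 h8 h9 h10
  refine hmain T n N a g h h1 h2 h3 h4 h5 h6 h7 h8 h9 h10 _ (filter_subset _ _) ?_
  intro m hm p hp hp2 hpn
  obtain ⟨-, c₁, c₂, hΔ, hRR⟩ := mem_filter.1 hm
  obtain ⟨t, ht⟩ := square_mod (c₁ := c₁) (c₂ := c₂) hRR p hp hp2 hpn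
  exact ⟨t, by rw [hΔ]; exact ht⟩

end Pool.Agent.Results.MP_b01859_ag.DiscriminantsInFamilies
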