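import Pool.Agent.R852.LK.Pairs

set_option autoImplicit false

/-!
# Few exceptional Chern classes of bundles of rank two

Let `E` be a complex vector bundle of rank two on `ℙ^n` with the Chern classes `c₁`, `c₂`. The theorem
of Riemann-Roch gives the Riemann-Roch conditions for the polynomial `T² - c₁ T + c₂`. They hold for the
classes `a + b`, `a b` of direct sums of line bundles, and these have the discriminants
`c₁² - 4 c₂ = (a - b)²`. We show for all real numbers `A` and `ε > 0`, all `n ≥ n₀(A, ε)`:

* For `X ≤ n ^ A` at most `√X / n ^ (2 √e - ε)` integers `D` with `|D| ≤ X` which are not squares are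
  the discriminants of pairs satisfying the Riemann-Roch conditions.
* For `1 ≤ H ≤ n ^ A` at most `H² / n ^ (2 √e - ε)` pairs of integers with `|c₁| ≤ H`, `|c₂| ≤ H²`
  satisfy the Riemann-Roch conditions and are not of the form `c₁ = a + b`, `c₂ = a b`.

Here `2 √e = 3.29…`. There are about `√X` squares `D ≤ X`, and at least a constant times `H²` pairs of the
form `(a + b, a b)` as in the second statement; so the exceptions are rarer by a power of `n`.

The proof. By the Riemann-Roch conditions `D` is a square modulo all odd primes `p < n` (this is in the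
work of helper920). We show that the integers `D` with this property and `|D| ≤ n ^ A` lie in at most
`n ^ ε` classes modulo squares (a bound of the kind of Linnik's theorem on the least non-residue; the
proof compares the second moment of the sum of the symbols `(D / m)` over representatives `D`, over all
`m ≤ n ^ B`, with the contribution of the products `m` of `B` primes below `n`). By
the bound of Burgess and the method of Vinogradov (BurgessDiscriminant) the squarefree part of `D` is
at least `n ^ (4 √e - ε)`, so there are at most `√X / n ^ (2 √e - ε / 2)` integers `D` with `|D| ≤ X` in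
each class.
-/

namespace Pool.Agent.Results.MP_b01859_ag.FewExceptionalClasses

open Pool.Agent.R920.CH

/-- **Few exceptional discriminants and Chern classes.** -/
theorem result (A ε : ℝ) (hε : 0 < ε) : ∃ n₀ : ℕ, ∀ n ≥ n₀,
    (∀ X : ℝ, 0 ≤ X → X ≤ (n : ℝ) ^ A → ∀ S : Finset ℤ,
      (∀ D ∈ S, |(D : ℝ)| ≤ X ∧ ¬ IsSquare D ∧
        ∃ c₁ c₂ : ℤ, RiemannRoch n (poly2 c₁ c₂) ∧ c₁ ^ 2 - 4 * c₂ = D) →
      (S.card : ℝ) ≤ √X / (n : ℝ) ^ (2 * Real.exp (1 / 2) - ε)) ∧
    (∀ H : ℝ, 1 ≤ H → H ≤ (n : ℝ) ^ A → ∀ S : Finset (ℤ × ℤ),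
      (∀ c ∈ S, |(c.1 : ℝ)| ≤ H ∧ |(c.2 : ℝ)| ≤ H ^ 2 ∧ RiemannRoch n (poly2 c.1 c.2) ∧
        ¬ ∃ a b : ℤ, c.1 = a + b ∧ c.2 = a * b) →
      (S.card : ℝ) ≤ H ^ 2 / (n : ℝ) ^ (2 * Real.exp (1 / 2) - ε)) := by
  obtain ⟨n₁, h₁⟩ := Filter.eventually_atTop.mp (Pool.Agent.R852.LK.count A ε hε)
  obtain ⟨n₂, h₂⟩ := Filter.eventually_atTop.mp (Pool.Agent.R852.LK.pairs A ε hε)
  exact ⟨max n₁ n₂, fun n hn => ⟨fun X hX0 hX S hS =>
    h₁ n (le_trans (le_max_left _ _) hn) X hX0 hX S hS,
      h₂ n (le_trans (le_max_right _ _) hn)⟩⟩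

end Pool.Agent.Results.MP_b01859_ag.FewExceptionalClasses
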